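import Mathlib

set_option autoImplicit false

open Filter Topology

namespace Pool.Agent.Lib.MP_de9148_co

/-- reflection offsets -/
def C {n : ℕ} (i : Fin (n + 1)) : ℝ := -((i : ℕ) : ℝ)

/-- cyclic distance from `k` to `i` -/
def rr {n : ℕ} (k i : Fin (n + 1)) : ℝ := (((i - k : Fin (n + 1)) : ℕ) : ℝ)

theorem val_succ_of_ne {n : ℕ} (j : Fin (n + 1)) (h : j + 1 ≠ 0) :
    ((j + 1 : Fin (n + 1)) : ℕ) = (j : ℕ) + 1 := by
  rw [Fin.val_add_one]
  split_ifs with h1
  · subst h1
    exact absurd (Fin.last_add_one n) h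
  · rfl

theorem rr_lt {n : ℕ} (k i : Fin (n + 1)) (h : i + 1 ≠ k) : rr k i < rr k (i + 1) := by
  unfold rr
  have h1 : i + 1 - k = (i - k) + 1 := add_sub_right_comm i 1 k
  have h2 : (i - k) + 1 ≠ 0 := by
    rw [← h1]
    intro h3
    exact h (sub_eq_zero.mp h3)
  rw [h1, val_succ_of_ne _ h2]
  push_cast
  linarith

theorem C_lt {n : ℕ} (i : Fin (n + 1)) (h : i + 1 ≠ 0) : C (i + 1) < C i := by
  unfold C
  rw [val_succ_of_ne _ h]
  push_cast
  linarith

/-- The properties of the configuration after `m` splitting steps. -/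
structure Stage (n m : ℕ) (y μ : (Fin (n + 1) → Bool) → Fin (n + 1) → ℝ) : Prop where
  pos : ∀ σ i, 0 < μ σ i
  B : ∀ σ σ' i, i + 1 ≠ 0 →
    μ σ' i * (y σ i + y σ' i - C i) < μ σ' (i + 1) * (y σ (i + 1) + y σ' (i + 1) - C (i + 1))
  A : ∀ σ σ' (k : Fin (n + 1)), (k : ℕ) < m → (∀ l < k, σ l = σ' l) → σ k ≠ σ' k → ∀ i, i ≠ k → i + 1 ≠ k →
    μ σ' i * (y σ i - y σ' i) < μ σ' (i + 1) * (y σ (i + 1) - y σ' (i + 1))
  dep : ∀ σ σ', (∀ l : Fin (n + 1), (l : ℕ) < m → σ l = σ' l) → y σ = y σ' ∧ μ σ = μ σ'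

/-- sign of a Boolean -/
def sg (b : Bool) : ℝ := if b then 1 else -1

theorem sg_neg {a b : Bool} (h : a ≠ b) : sg b = - sg a := by
  cases a <;> cases b <;> simp_all [sg]

theorem sg_sq (a : Bool) : sg a * sg a = 1 := by
  cases a <;> simp [sg]

theorem stage_exists (n m : ℕ) (hm : m ≤ n + 1) : ∃ y μ, Stage n m y μ := by
  induction m with
  | zero =>
    refine ⟨fun _ _ => 0, fun _ _ => 1, ?_, ?_, ?_, ?_⟩
    · intro σ i
      norm_num
    · intro σ σ' i hi
      have := C_lt i hi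
      linarith
    · intro σ σ' k hk
      exact absurd hk (Nat.not_lt_zero _)
    · intro σ σ' _
      exact ⟨rfl, rfl⟩
  | succ m ih =>
    obtain ⟨y, μ, hs⟩ := ih (by omega)
    let k : Fin (n + 1) := ⟨m, by omega⟩
    let Y : ℝ → (Fin (n + 1) → Bool) → Fin (n + 1) → ℝ :=
      fun ε σ i => y σ i + sg (σ k) * ε / μ σ i
    let M : ℝ → (Fin (n + 1) → Bool) → Fin (n + 1) → ℝ :=
      fun ε σ i => μ σ i * (1 - sg (σ k) * ε * rr k i)
    have hY0 : ∀ σ i, Y 0 σ i = y σ i := by intro σ i; simp [Y]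
    have hM0 : ∀ σ i, M 0 σ i = μ σ i := by intro σ i; simp [M]
    have hYc : ∀ σ i, ContinuousAt (fun ε => Y ε σ i) 0 := by
      intro σ i
      simp only [Y]
      fun_prop
    have hMc : ∀ σ i, ContinuousAt (fun ε => M ε σ i) 0 := by
      intro σ i
      simp only [M]
      fun_prop
    have e1 : ∀ᶠ ε in 𝓝 (0 : ℝ), ∀ σ i, 0 < M ε σ i := by
      rw [eventually_all]
      intro σ
      rw [eventually_all]
      intro i
      have h0 : (fun _ : ℝ => (0 : ℝ)) 0 < (fun ε => M ε σ i) 0 := by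
        simp only [hM0]
        exact hs.pos σ i
      exact ContinuousAt.eventually_lt continuousAt_const (hMc σ i) h0
    have e2 : ∀ᶠ ε in 𝓝 (0 : ℝ), ∀ σ σ' i, i + 1 ≠ 0 →
        M ε σ' i * (Y ε σ i + Y ε σ' i - C i) <
          M ε σ' (i + 1) * (Y ε σ (i + 1) + Y ε σ' (i + 1) - C (i + 1)) := by
      rw [eventually_all]
      intro σ
      rw [eventually_all]
      intro σ'
      rw [eventually_all]
      intro i
      rw [eventually_imp_distrib_left]
      intro hi
      refine ContinuousAt.eventually_lt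
        ((hMc σ' i).mul (((hYc σ i).add (hYc σ' i)).sub continuousAt_const))
        ((hMc σ' (i + 1)).mul (((hYc σ (i + 1)).add (hYc σ' (i + 1))).sub continuousAt_const)) ?_
      simp only [hY0, hM0]
      exact hs.B σ σ' i hi
    have e3 : ∀ᶠ ε in 𝓝 (0 : ℝ), ∀ σ σ' (k' : Fin (n + 1)), (k' : ℕ) < m → (∀ l < k', σ l = σ' l) →
        σ k' ≠ σ' k' → ∀ i, i ≠ k' → i + 1 ≠ k' →
        M ε σ' i * (Y ε σ i - Y ε σ' i) < M ε σ' (i + 1) * (Y ε σ (i + 1) - Y ε σ' (i + 1)) := by
      rw [eventually_all]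
      intro σ
      rw [eventually_all]
      intro σ'
      rw [eventually_all]
      intro k'
      rw [eventually_imp_distrib_left]
      intro hk'
      rw [eventually_imp_distrib_left]
      intro hl
      rw [eventually_imp_distrib_left]
      intro hne
      rw [eventually_all]
      intro i
      rw [eventually_imp_distrib_left]
      intro h1
      rw [eventually_imp_distrib_left]
      intro h2
      refine ContinuousAt.eventually_lt
        ((hMc σ' i).mul ((hYc σ i).sub (hYc σ' i)))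
        ((hMc σ' (i + 1)).mul ((hYc σ (i + 1)).sub (hYc σ' (i + 1)))) ?_
      simp only [hY0, hM0]
      exact hs.A σ σ' k' hk' hl hne i h1 h2
    have e4 : ∀ᶠ ε in 𝓝[>] (0 : ℝ), 0 < ε := self_mem_nhdsWithin
    obtain ⟨ε, ⟨⟨h1, h2⟩, h3⟩, hε⟩ :=
      (((e1.and e2).and e3).filter_mono (nhdsWithin_le_nhds) |>.and e4).exists
    refine ⟨Y ε, M ε, h1, h2, ?_, ?_⟩
    · intro σ σ' k' hk' hl hne i hi1 hi2
      rcases Nat.lt_succ_iff_lt_or_eq.mp hk' with hlt | heq
      · exact h3 σ σ' k' hlt hl hne i hi1 hi2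
      · have hkk : k' = k := Fin.ext heq
        subst hkk
        have hdep := hs.dep σ σ' (by
          intro l hl'
          exact hl l (by
            rw [Fin.lt_def]
            exact hl'))
        have hrr := rr_lt k i hi2
        have key : ∀ j, M ε σ' j * (Y ε σ j - Y ε σ' j)
            = 2 * sg (σ k) * ε + 2 * ε ^ 2 * rr k j := by
          intro j
          simp only [M, Y]
          rw [← hdep.1, ← hdep.2, sg_neg hne]
          have hμ := (hs.pos σ j).ne'
          field_simp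
          have hsq := sg_sq (σ k)
          ring_nf
          have hsq' : sg (σ k) ^ 2 = 1 := by rw [sq]; exact hsq
          rw [hsq']
          ring
        rw [key i, key (i + 1)]
        have : 0 < 2 * ε ^ 2 := by positivity
        nlinarith
    · intro σ σ' hag
      have hdep := hs.dep σ σ' (fun l hl => hag l (by omega))
      have hk : σ k = σ' k := hag k (by simp [k])
      constructor
      · funext i
        simp only [Y]
        rw [hdep.1, hdep.2, hk]
      · funext i
        simp only [M]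
        rw [hdep.2, hk]

/-- The configuration of `2 ^ n` lines with marked points in dimension `n + 1`. -/
theorem config_exists (n : ℕ) : ∃ y μ : (Fin (n + 1) → Bool) → Fin (n + 1) → ℝ,
    (∀ σ i, 0 < μ σ i) ∧
    (∀ σ σ' i, i + 1 ≠ 0 →
      μ σ' i * (y σ i + y σ' i - C i) <
        μ σ' (i + 1) * (y σ (i + 1) + y σ' (i + 1) - C (i + 1))) ∧
    (∀ σ σ', σ ≠ σ' → ∀ i, σ i = σ' i → σ (i + 1) = σ' (i + 1) →
      μ σ' i * (y σ i - y σ' i) < μ σ' (i + 1) * (y σ (i + 1) - y σ' (i + 1))) := by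
  obtain ⟨y, μ, hs⟩ := stage_exists n (n + 1) le_rfl
  refine ⟨y, μ, hs.pos, hs.B, ?_⟩
  intro σ σ' hne i hi hi1
  have hex : ∃ k, σ k ≠ σ' k := by
    by_contra hcon
    push Not at hcon
    exact hne (funext hcon)
  obtain ⟨k, hk, hmin⟩ := Finset.exists_min_image
    (Finset.univ.filter (fun k => σ k ≠ σ' k)) (fun k => (k : ℕ))
    (by
      obtain ⟨k, hk⟩ := hex
      exact ⟨k, by simp [hk]⟩)
  simp only [Finset.mem_filter, Finset.mem_univ, true_and] at hk hmin
  refine hs.A σ σ' k k.isLt ?_ hk i ?_ ?_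
  · intro l hl
    by_contra hcon
    have := hmin l hcon
    rw [Fin.lt_def] at hl
    omega
  · rintro rfl
    exact hk hi
  · rintro rfl
    exact hk hi1

end Pool.Agent.Lib.MP_de9148_co
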