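import Mathlib
import Pool.Agent.Lib.MP_de9148_co.Config

set_option autoImplicit false

open Filter Topology

namespace Pool.Agent.Lib.MP_de9148_co

/-- signed coordinate -/
def R {n : ℕ} (b : Bool) (i : Fin (n + 1)) (x : ℝ) : ℝ := if b then x else C i - x

theorem R_R_same {n : ℕ} {b b' : Bool} (h : b = b') (i : Fin (n + 1)) (x : ℝ) :
    R b i (R b' i x) = x := by
  subst h
  cases b <;> simp [R]

theorem R_R_diff {n : ℕ} {b b' : Bool} (h : b ≠ b') (i : Fin (n + 1)) (x : ℝ) :
    R b i (R b' i x) = C i - x := by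
  cases b <;> cases b' <;> simp_all [R]

/-- When a line with nonzero speeds meets a quadrant. -/
theorem meets {n : ℕ} (σ σ' : Fin (n + 1) → Bool) (α β : Fin (n + 1) → ℝ)
    (hβ : ∀ i, 0 < β i) (i j : Fin (n + 1)) (a b : ℝ)
    (h1 : σ i = σ' i → σ j = σ' j → α i + β i * a ≤ α j + β j * b)
    (h2 : σ i ≠ σ' i → σ j ≠ σ' j → α j + β j * (C j - b) ≤ α i + β i * (C i - a)) :
    ∃ t : ℝ, a ≤ R (σ i) i (R (σ' i) i ((t - α i) / β i)) ∧
      R (σ j) j (R (σ' j) j ((t - α j) / β j)) ≤ b := by
  have hi := hβ i
  have hj := hβ j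
  by_cases hsi : σ i = σ' i
  · by_cases hsj : σ j = σ' j
    · have h := h1 hsi hsj
      refine ⟨α i + β i * a, ?_, ?_⟩
      · rw [R_R_same hsi, le_div_iff₀ hi]
        linarith
      · rw [R_R_same hsj, div_le_iff₀ hj]
        linarith
    · refine ⟨max (α i + β i * a) (α j + β j * (C j - b)), ?_, ?_⟩
      · rw [R_R_same hsi, le_div_iff₀ hi]
        have := le_max_left (α i + β i * a) (α j + β j * (C j - b))
        linarith
      · rw [R_R_diff hsj]
        have := le_max_right (α i + β i * a) (α j + β j * (C j - b))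
        have h3 : C j - b ≤ (max (α i + β i * a) (α j + β j * (C j - b)) - α j) / β j := by
          rw [le_div_iff₀ hj]
          linarith
        linarith
  · by_cases hsj : σ j = σ' j
    · refine ⟨min (α i + β i * (C i - a)) (α j + β j * b), ?_, ?_⟩
      · rw [R_R_diff hsi]
        have := min_le_left (α i + β i * (C i - a)) (α j + β j * b)
        have h3 : (min (α i + β i * (C i - a)) (α j + β j * b) - α i) / β i ≤ C i - a := by
          rw [div_le_iff₀ hi]
          linarith
        linarith
      · rw [R_R_same hsj, div_le_iff₀ hj]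
        have := min_le_right (α i + β i * (C i - a)) (α j + β j * b)
        linarith
    · have h := h2 hsi hsj
      refine ⟨α i + β i * (C i - a), ?_, ?_⟩
      · rw [R_R_diff hsi]
        have h3 : (α i + β i * (C i - a) - α i) / β i ≤ C i - a := by
          rw [div_le_iff₀ hi]
          linarith
        linarith
      · rw [R_R_diff hsj]
        have h3 : C j - b ≤ (α i + β i * (C i - a) - α j) / β j := by
          rw [le_div_iff₀ hj]
          linarith
        linarith

/-- position of a coordinate along the cycle, counted from 1 -/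
def posn {n : ℕ} (i : Fin (n + 1)) : ℕ := if i = 0 then n + 1 else (i : ℕ)

theorem posn_zero {n : ℕ} : posn (0 : Fin (n + 1)) = n + 1 := by simp [posn]

theorem posn_zero_add_one {n : ℕ} (hn : 1 ≤ n) : posn ((0 : Fin (n + 1)) + 1) = 1 := by
  have h : (0 : Fin (n + 1)) ≠ Fin.last n := by
    intro h
    have := congrArg Fin.val h
    simp at this
    omega
  have h1 : (((0 : Fin (n + 1)) + 1 : Fin (n + 1)) : ℕ) = 1 := by
    rw [Fin.val_add_one, if_neg h]
    simp
  have h2 : (0 : Fin (n + 1)) + 1 ≠ 0 := by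
    intro h3
    rw [h3] at h1
    simp at h1
  unfold posn
  rw [if_neg h2, h1]

theorem posn_succ {n : ℕ} (k : Fin n) : posn k.succ = (k : ℕ) + 1 := by
  unfold posn
  rw [if_neg (Fin.succ_ne_zero k)]
  simp

theorem posn_succ_add_one {n : ℕ} (k : Fin n) : posn (k.succ + 1) = (k : ℕ) + 2 := by
  unfold posn
  split_ifs with h
  · by_contra hne
    have h1 : k.succ ≠ Fin.last n := by
      intro h2
      have := congrArg Fin.val h2
      simp at this
      omega
    have h3 : ((k.succ + 1 : Fin (n + 1)) : ℕ) = (k.succ : ℕ) + 1 := by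
      rw [Fin.val_add_one, if_neg h1]
    rw [h] at h3
    simp at h3
  · rw [val_succ_of_ne _ h]
    simp

/-- slope perturbation coefficients -/
def cc {n : ℕ} (e : Option (Fin n × Bool)) (i : Fin (n + 1)) : ℝ :=
  match e with
  | none => 0
  | some (k, s) => if (k : ℕ) + 1 < posn i then sg s else 0

/-- the arc of the cycle attached to an index -/
def arc {n : ℕ} (e : Option (Fin n × Bool)) : Fin (n + 1) :=
  match e with
  | none => 0
  | some (k, _) => k.succ

/-- sign of the time attached to an index -/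
def tsg {n : ℕ} (e : Option (Fin n × Bool)) : ℝ :=
  match e with
  | none => 0
  | some (_, s) => sg s

/-- time function in the direction of coordinate `i` -/
def G {n : ℕ} (δ : ℝ) (e : Option (Fin n × Bool)) (i : Fin (n + 1)) (T : ℝ) : ℝ :=
  3 * ((posn i : ℝ) - 1) * δ ^ 2 - (cc e i) ^ 2 * (3 * ((n : ℝ) + 1)) * δ ^ 2 +
    (1 - cc e i * (3 * ((n : ℝ) + 1)) * δ) * T

theorem cc_abs {n : ℕ} (e : Option (Fin n × Bool)) (i : Fin (n + 1)) : |cc e i| ≤ 1 := by
  unfold cc
  rcases e with _ | ⟨k, s⟩
  · simp
  · simp only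
    split_ifs
    · cases s <;> simp [sg]
    · simp

theorem slope_pos {n : ℕ} {δ : ℝ} (hδ : 0 < δ) (hD : 3 * ((n : ℝ) + 1) * δ ≤ 1 / 2)
    (e : Option (Fin n × Bool)) (i : Fin (n + 1)) :
    0 < 1 - cc e i * (3 * ((n : ℝ) + 1)) * δ := by
  have h1 := (abs_le.mp (cc_abs e i)).2
  have h2 : 0 ≤ 3 * ((n : ℝ) + 1) * δ := by positivity
  nlinarith

/-- All constraints with the same host except its own are satisfied. -/
theorem same_host {n : ℕ} (hn : 1 ≤ n) {δ : ℝ} (hδ : 0 < δ)
    (hD : 3 * ((n : ℝ) + 1) * δ ≤ 1 / 2) (e e' : Option (Fin n × Bool)) (hne : e ≠ e') :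
    G δ e (arc e') (tsg e' * δ + δ ^ 2) ≤ G δ e (arc e' + 1) (tsg e' * δ - δ ^ 2) := by
  have hδ2 : 0 < δ ^ 2 := by positivity
  have hD0 : 0 ≤ 3 * ((n : ℝ) + 1) * δ := by positivity
  have hp1 : 0 ≤ δ ^ 2 * (1 - 2 * (3 * ((n : ℝ) + 1) * δ)) :=
    mul_nonneg hδ2.le (by linarith)
  have hp2 : 0 ≤ δ ^ 2 * (3 * ((n : ℝ) + 1) * δ) := mul_nonneg hδ2.le hD0
  rcases e' with _ | ⟨k', s'⟩
  · rcases e with _ | ⟨k, s⟩
    · exact absurd rfl hne
    · have hk : (k : ℕ) + 1 < n + 1 := by
        have := k.isLt
        omega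
      have hk' : ¬ ((k : ℕ) + 1 < 1) := by omega
      simp only [G, arc, tsg, cc, posn_zero, posn_zero_add_one hn, hk, hk', if_true, if_false]
      push_cast
      cases s <;> simp only [sg] <;> simp only [if_true, Bool.false_eq_true, if_false] <;>
        nlinarith
  · rcases e with _ | ⟨k, s⟩
    · simp only [G, arc, tsg, cc, posn_succ, posn_succ_add_one]
      push_cast
      cases s' <;> simp only [sg] <;> simp only [if_true, Bool.false_eq_true, if_false] <;>
        nlinarith
    · rcases lt_trichotomy (k : ℕ) (k' : ℕ) with hlt | heq | hgt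
      · have h1 : (k : ℕ) + 1 < (k' : ℕ) + 1 := by omega
        have h2 : (k : ℕ) + 1 < (k' : ℕ) + 2 := by omega
        simp only [G, arc, tsg, cc, posn_succ, posn_succ_add_one, h1, h2, if_true]
        push_cast
        cases s <;> cases s' <;> simp only [sg] <;>
          simp only [if_true, Bool.false_eq_true, if_false] <;> nlinarith
      · have h1 : ¬ ((k : ℕ) + 1 < (k' : ℕ) + 1) := by omega
        have h2 : (k : ℕ) + 1 < (k' : ℕ) + 2 := by omega
        have hkk : k = k' := Fin.ext heq
        have hss : s ≠ s' := by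
          rintro rfl
          exact hne (by rw [hkk])
        simp only [G, arc, tsg, cc, posn_succ, posn_succ_add_one, h1, h2, if_true, if_false]
        push_cast
        cases s <;> cases s' <;> first | (exact absurd rfl hss) | skip
        all_goals
          simp only [sg]
          simp only [if_true, Bool.false_eq_true, if_false]
          nlinarith
      · have h1 : ¬ ((k : ℕ) + 1 < (k' : ℕ) + 1) := by omega
        have h2 : ¬ ((k : ℕ) + 1 < (k' : ℕ) + 2) := by omega
        simp only [G, arc, tsg, cc, posn_succ, posn_succ_add_one, h1, h2, if_false]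
        push_cast
        cases s' <;> simp only [sg] <;> simp only [if_true, Bool.false_eq_true, if_false] <;>
          nlinarith

end Pool.Agent.Lib.MP_de9148_co
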