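import Mathlib
import Pool.Agent.Lib.MP_de9148_co.Quadrants

set_option autoImplicit false

open Filter Topology

namespace Pool.Agent.Lib.MP_de9148_co

theorem exists_delta (n : ℕ) : ∃ (y μ : (Fin (n + 1) → Bool) → Fin (n + 1) → ℝ) (δ : ℝ),
    (∀ σ i, 0 < μ σ i) ∧ 0 < δ ∧ 3 * ((n : ℝ) + 1) * δ ≤ 1 / 2 ∧
    (∀ σ σ' : Fin (n + 1) → Bool, ∀ e e' : Option (Fin n × Bool), σ ≠ σ' →
      σ (arc e') = σ' (arc e') → σ (arc e' + 1) = σ' (arc e' + 1) →
      G δ e (arc e')
        (μ σ' (arc e') * (y σ (arc e') + (tsg e' * δ + δ ^ 2) / μ σ (arc e') - y σ' (arc e'))) ≤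
      G δ e (arc e' + 1)
        (μ σ' (arc e' + 1) * (y σ (arc e' + 1) + (tsg e' * δ - δ ^ 2) / μ σ (arc e' + 1)
          - y σ' (arc e' + 1)))) ∧
    (∀ σ σ' : Fin (n + 1) → Bool, ∀ e e' : Option (Fin n × Bool), arc e' + 1 ≠ 0 →
      G δ e (arc e' + 1)
        (μ σ' (arc e' + 1) * (C (arc e' + 1) -
          (y σ (arc e' + 1) + (tsg e' * δ - δ ^ 2) / μ σ (arc e' + 1)) - y σ' (arc e' + 1))) ≤
      G δ e (arc e')
        (μ σ' (arc e') * (C (arc e') -
          (y σ (arc e') + (tsg e' * δ + δ ^ 2) / μ σ (arc e')) - y σ' (arc e')))) := by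
  obtain ⟨y, μ, hpos, hB, hA⟩ := config_exists n
  have hG0 : ∀ (e : Option (Fin n × Bool)) (i : Fin (n + 1)) (T : ℝ), G 0 e i T = T := by
    intro e i T
    simp [G]
  have e1 : ∀ᶠ δ in 𝓝 (0 : ℝ), 3 * ((n : ℝ) + 1) * δ ≤ 1 / 2 := by
    have hc : ContinuousAt (fun δ : ℝ => 3 * ((n : ℝ) + 1) * δ) 0 := by fun_prop
    have := ContinuousAt.eventually_lt hc (continuousAt_const (y := (1 / 2 : ℝ)))
      (by norm_num)
    exact this.mono (fun _ h => h.le)
  have e2 : ∀ᶠ δ in 𝓝 (0 : ℝ), ∀ σ σ' : Fin (n + 1) → Bool,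
      ∀ e e' : Option (Fin n × Bool), σ ≠ σ' →
      σ (arc e') = σ' (arc e') → σ (arc e' + 1) = σ' (arc e' + 1) →
      G δ e (arc e')
        (μ σ' (arc e') * (y σ (arc e') + (tsg e' * δ + δ ^ 2) / μ σ (arc e') - y σ' (arc e'))) ≤
      G δ e (arc e' + 1)
        (μ σ' (arc e' + 1) * (y σ (arc e' + 1) + (tsg e' * δ - δ ^ 2) / μ σ (arc e' + 1)
          - y σ' (arc e' + 1))) := by
    rw [eventually_all]
    intro σ
    rw [eventually_all]
    intro σ'
    rw [eventually_all]
    intro e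
    rw [eventually_all]
    intro e'
    rw [eventually_imp_distrib_left]
    intro h1
    rw [eventually_imp_distrib_left]
    intro h2
    rw [eventually_imp_distrib_left]
    intro h3
    refine (ContinuousAt.eventually_lt (?_ : ContinuousAt (fun δ : ℝ => G δ e (arc e')
        (μ σ' (arc e') * (y σ (arc e') + (tsg e' * δ + δ ^ 2) / μ σ (arc e')
          - y σ' (arc e')))) 0)
      (?_ : ContinuousAt (fun δ : ℝ => G δ e (arc e' + 1)
        (μ σ' (arc e' + 1) * (y σ (arc e' + 1) + (tsg e' * δ - δ ^ 2) / μ σ (arc e' + 1)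
          - y σ' (arc e' + 1)))) 0) ?_).mono (fun _ h => h.le)
    · unfold G
      fun_prop
    · unfold G
      fun_prop
    · simp only [hG0]
      have := hA σ σ' h1 (arc e') h2 h3
      simpa using this
  have e3 : ∀ᶠ δ in 𝓝 (0 : ℝ), ∀ σ σ' : Fin (n + 1) → Bool,
      ∀ e e' : Option (Fin n × Bool), arc e' + 1 ≠ 0 →
      G δ e (arc e' + 1)
        (μ σ' (arc e' + 1) * (C (arc e' + 1) -
          (y σ (arc e' + 1) + (tsg e' * δ - δ ^ 2) / μ σ (arc e' + 1)) - y σ' (arc e' + 1))) ≤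
      G δ e (arc e')
        (μ σ' (arc e') * (C (arc e') -
          (y σ (arc e') + (tsg e' * δ + δ ^ 2) / μ σ (arc e')) - y σ' (arc e'))) := by
    rw [eventually_all]
    intro σ
    rw [eventually_all]
    intro σ'
    rw [eventually_all]
    intro e
    rw [eventually_all]
    intro e'
    rw [eventually_imp_distrib_left]
    intro h1
    refine (ContinuousAt.eventually_lt (?_ : ContinuousAt (fun δ : ℝ => G δ e (arc e' + 1)
        (μ σ' (arc e' + 1) * (C (arc e' + 1) -
          (y σ (arc e' + 1) + (tsg e' * δ - δ ^ 2) / μ σ (arc e' + 1)) - y σ' (arc e' + 1)))) 0)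
      (?_ : ContinuousAt (fun δ : ℝ => G δ e (arc e')
        (μ σ' (arc e') * (C (arc e') -
          (y σ (arc e') + (tsg e' * δ + δ ^ 2) / μ σ (arc e')) - y σ' (arc e')))) 0)
        ?_).mono (fun _ h => h.le)
    · unfold G
      fun_prop
    · unfold G
      fun_prop
    · simp only [hG0]
      have := hB σ σ' (arc e') h1
      simp only [mul_zero, add_zero, sub_zero, zero_div, ne_eq, OfNat.ofNat_ne_zero,
        not_false_eq_true, zero_pow]
      linarith
  have e4 : ∀ᶠ δ in 𝓝[>] (0 : ℝ), 0 < δ := self_mem_nhdsWithin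
  obtain ⟨δ, ⟨⟨h1, h2⟩, h3⟩, hδ⟩ :=
    (((e1.and e2).and e3).filter_mono (nhdsWithin_le_nhds) |>.and e4).exists
  exact ⟨y, μ, δ, hpos, hδ, h1, h2, h3⟩

/-- the index type of the family -/
abbrev Idx (n : ℕ) : Type := (Fin n → Bool) × Option (Fin n × Bool)

/-- the sign vector of an index -/
def sgv {n : ℕ} (τ : Fin n → Bool) : Fin (n + 1) → Bool := Fin.cons true τ

theorem sgv_zero {n : ℕ} (τ : Fin n → Bool) : sgv τ 0 = true := rfl

theorem sgv_inj {n : ℕ} {τ τ' : Fin n → Bool} (h : sgv τ = sgv τ') : τ = τ' := by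
  funext i
  have := congrFun h i.succ
  simpa [sgv] using this

/-- the quadrant attached to an index -/
def Q {n : ℕ} (a b : Idx n → ℝ) (k : Idx n) (x : Fin (n + 1) → ℝ) : Prop :=
  a k ≤ R (sgv k.1 (arc k.2)) (arc k.2) (x (arc k.2)) ∧
    R (sgv k.1 (arc k.2 + 1)) (arc k.2 + 1) (x (arc k.2 + 1)) ≤ b k

theorem R_line {n : ℕ} (b : Bool) (i : Fin (n + 1)) (t α β : ℝ) :
    R b i ((t - α) / β) = R b i (-α / β) + t * (sg b / β) := by
  cases b <;> simp only [R, sg, if_true, Bool.false_eq_true, if_false] <;> ring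

theorem quad_system (n : ℕ) (hn : 1 ≤ n) : ∃ (a b : Idx n → ℝ) (p v : Idx n → Fin (n + 1) → ℝ),
    (∀ k, v k ≠ 0) ∧ (∀ k k', k ≠ k' → ∃ t : ℝ, Q a b k' (p k + t • v k)) ∧
    (∀ p v : Fin (n + 1) → ℝ, 0 ≤ v 0 → (∀ k, ∃ t : ℝ, Q a b k (p + t • v)) → False) := by
  obtain ⟨y, μ, δ, hpos, hδ, hD, hA, hB⟩ := exists_delta n
  let al : Idx n → Fin (n + 1) → ℝ := fun k i =>
    3 * ((posn i : ℝ) - 1) * δ ^ 2 - (cc k.2 i) ^ 2 * (3 * ((n : ℝ) + 1)) * δ ^ 2 -
      (1 - cc k.2 i * (3 * ((n : ℝ) + 1)) * δ) * μ (sgv k.1) i * y (sgv k.1) i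
  let be : Idx n → Fin (n + 1) → ℝ := fun k i =>
    (1 - cc k.2 i * (3 * ((n : ℝ) + 1)) * δ) * μ (sgv k.1) i
  have hbe : ∀ k i, 0 < be k i := by
    intro k i
    exact mul_pos (slope_pos hδ hD k.2 i) (hpos _ _)
  have hG : ∀ k i (Y : ℝ), al k i + be k i * Y =
      G δ k.2 i (μ (sgv k.1) i * (Y - y (sgv k.1) i)) := by
    intro k i Y
    simp only [al, be, G]
    ring
  refine ⟨fun k => y (sgv k.1) (arc k.2) + (tsg k.2 * δ + δ ^ 2) / μ (sgv k.1) (arc k.2),
    fun k => y (sgv k.1) (arc k.2 + 1) + (tsg k.2 * δ - δ ^ 2) / μ (sgv k.1) (arc k.2 + 1),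
    fun k i => R (sgv k.1 i) i (-al k i / be k i),
    fun k i => sg (sgv k.1 i) / be k i, ?_, ?_, ?_⟩
  · intro k h
    have := congrFun h 0
    simp only [sgv_zero, sg, if_true, Pi.zero_apply] at this
    have h2 := hbe k 0
    have h3 : 0 < 1 / be k 0 := by positivity
    linarith
  · intro k k' hne
    obtain ⟨t, ht1, ht2⟩ := meets (sgv k'.1) (sgv k.1) (al k) (be k) (hbe k)
      (arc k'.2) (arc k'.2 + 1)
      (y (sgv k'.1) (arc k'.2) + (tsg k'.2 * δ + δ ^ 2) / μ (sgv k'.1) (arc k'.2))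
      (y (sgv k'.1) (arc k'.2 + 1) + (tsg k'.2 * δ - δ ^ 2) / μ (sgv k'.1) (arc k'.2 + 1))
      (by
        intro h1 h2
        rw [hG, hG]
        by_cases hs : sgv k'.1 = sgv k.1
        · have h3 : k.2 ≠ k'.2 := by
            intro h4
            exact hne (Prod.ext (sgv_inj hs).symm h4)
          have h5 := same_host hn hδ hD k.2 k'.2 h3
          rw [hs]
          have h6 : μ (sgv k.1) (arc k'.2) * (y (sgv k.1) (arc k'.2) +
              (tsg k'.2 * δ + δ ^ 2) / μ (sgv k.1) (arc k'.2) - y (sgv k.1) (arc k'.2)) =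
              tsg k'.2 * δ + δ ^ 2 := by
            have := (hpos (sgv k.1) (arc k'.2)).ne'
            field_simp
            ring
          have h7 : μ (sgv k.1) (arc k'.2 + 1) * (y (sgv k.1) (arc k'.2 + 1) +
              (tsg k'.2 * δ - δ ^ 2) / μ (sgv k.1) (arc k'.2 + 1) -
                y (sgv k.1) (arc k'.2 + 1)) = tsg k'.2 * δ - δ ^ 2 := by
            have := (hpos (sgv k.1) (arc k'.2 + 1)).ne'
            field_simp
            ring
          rw [h6, h7]
          exact h5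
        · exact hA (sgv k'.1) (sgv k.1) k.2 k'.2 hs h1 h2)
      (by
        intro h1 h2
        rw [hG, hG]
        have h3 : arc k'.2 + 1 ≠ 0 := by
          intro h4
          rw [h4] at h2
          exact h2 (by rw [sgv_zero, sgv_zero])
        exact hB (sgv k'.1) (sgv k.1) k.2 k'.2 h3)
    refine ⟨t, ?_, ?_⟩
    · simp only [Pi.add_apply, Pi.smul_apply, smul_eq_mul]
      rw [← R_line]
      exact ht1
    · simp only [Pi.add_apply, Pi.smul_apply, smul_eq_mul]
      rw [← R_line]
      exact ht2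
  · intro p v hv0 htr
    -- the sign pattern of the direction
    let τ : Fin n → Bool := fun i => decide (0 ≤ v i.succ)
    let w : Fin (n + 1) → ℝ := fun i => |v i|
    let A : Fin (n + 1) → ℝ := fun i => R (sgv τ i) i (p i)
    have hY : ∀ i t, R (sgv τ i) i ((p + t • v) i) = A i + t * w i := by
      intro i t
      simp only [Pi.add_apply, Pi.smul_apply, smul_eq_mul, A, w]
      refine Fin.cases ?_ ?_ i
      · rw [sgv_zero, abs_of_nonneg hv0]
        simp [R]
      · intro j
        by_cases hj : 0 ≤ v j.succ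
        · have h1 : sgv τ j.succ = true := by simp [sgv, τ, hj]
          rw [h1, abs_of_nonneg hj]
          simp [R]
        · have h1 : sgv τ j.succ = false := by simp [sgv, τ, hj]
          push Not at hj
          rw [h1, abs_of_neg hj]
          simp only [R, Bool.false_eq_true, if_false]
          ring
    have hw : ∀ i, 0 ≤ w i := fun i => abs_nonneg _
    have hδ2 : 0 < δ ^ 2 := by positivity
    -- separating times along the cycle
    have hS : ∀ k : Fin (n + 1), ∃ S : ℝ, y (sgv τ) k < A k + S * w k ∧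
        A (k + 1) + S * w (k + 1) < y (sgv τ) (k + 1) := by
      intro k
      refine Fin.cases ?_ ?_ k
      · obtain ⟨t, h1, h2⟩ := htr (τ, none)
        refine ⟨t, ?_, ?_⟩
        · simp only [arc, tsg] at h1
          rw [hY] at h1
          have h3 : 0 < (0 * δ + δ ^ 2) / μ (sgv τ) 0 := by
            have := hpos (sgv τ) 0
            rw [zero_mul, zero_add]
            positivity
          linarith
        · simp only [arc, tsg] at h2
          rw [hY] at h2
          have h3 : (0 * δ - δ ^ 2) / μ (sgv τ) (0 + 1) < 0 := by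
            have := hpos (sgv τ) (0 + 1)
            apply div_neg_of_neg_of_pos _ this
            linarith
          linarith
      · intro j
        obtain ⟨t, h1, h2⟩ := htr (τ, some (j, true))
        obtain ⟨t', h1', h2'⟩ := htr (τ, some (j, false))
        refine ⟨(t + t') / 2, ?_, ?_⟩
        · simp only [arc, tsg, sg, if_true, Bool.false_eq_true, if_false] at h1 h1'
          rw [hY] at h1 h1'
          have hm := hpos (sgv τ) j.succ
          have h3 : (1 * δ + δ ^ 2) / μ (sgv τ) j.succ + (-1 * δ + δ ^ 2) / μ (sgv τ) j.succ =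
              2 * (δ ^ 2 / μ (sgv τ) j.succ) := by ring
          have h4 : 0 < δ ^ 2 / μ (sgv τ) j.succ := by positivity
          linarith
        · simp only [arc, tsg, sg, if_true, Bool.false_eq_true, if_false] at h2 h2'
          rw [hY] at h2 h2'
          have hm := hpos (sgv τ) (j.succ + 1)
          have h3 : (1 * δ - δ ^ 2) / μ (sgv τ) (j.succ + 1) +
              (-1 * δ - δ ^ 2) / μ (sgv τ) (j.succ + 1) =
              - (2 * (δ ^ 2 / μ (sgv τ) (j.succ + 1))) := by ring
          have h4 : 0 < δ ^ 2 / μ (sgv τ) (j.succ + 1) := by positivity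
          linarith
    choose S hS1 hS2 using hS
    have hlt : ∀ k, S k < S (k + 1) := by
      intro k
      by_contra hcon
      push Not at hcon
      have h1 := hS1 (k + 1)
      have h2 := hS2 k
      have h3 := mul_le_mul_of_nonneg_right hcon (hw (k + 1))
      linarith
    obtain ⟨k, hk⟩ := Finite.exists_max S
    have h1 := hlt k
    have h2 := hk (k + 1)
    linarith

end Pool.Agent.Lib.MP_de9148_co
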